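import Pool.Agent.W136.RF.As

/-! Almost sure divergence, and densities of patterns -/

set_option autoImplicit false
set_option linter.unusedSectionVars false

namespace Pool.Agent.W136.RF

open Finset MeasureTheory ProbabilityTheory Filter

variable {Ω ι : Type*} [MeasurableSpace Ω]

theorem exp_neg_le {z : ℝ} (h0 : 0 ≤ z) (h1 : z ≤ 1) : Real.exp (-z) ≤ 1 - z / 2 := by
  have h3 : z + 1 ≤ Real.exp z := Real.add_one_le_exp z
  have h4 : 0 < 1 - z / 2 := by linarith
  have h5 : 1 ≤ (1 - z / 2) * Real.exp z := by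
    have : 1 ≤ (1 - z / 2) * (z + 1) := by nlinarith
    exact this.trans (mul_le_mul_of_nonneg_left h3 h4.le)
  rw [Real.exp_neg, inv_le_iff_one_le_mul₀ (Real.exp_pos z)]
  exact h5

theorem div_as {P : Measure Ω} [IsProbabilityMeasure P] {e : ℕ → Ω → ℝ}
    (hm : ∀ p, Measurable (e p)) (hind : iIndepFun e P)
    (φ : ℕ → ℝ → ℝ) (hφm : ∀ p, Measurable (φ p))
    (hφ0 : ∀ p ω, 0 ≤ φ p (e p ω)) (hφ1 : ∀ p, p.Prime → ∀ ω, φ p (e p ω) ≤ 1)
    (hdiv : Tendsto (fun X : ℕ => ∑ p ∈ PR X, ∫ ω, φ p (e p ω) ∂P) atTop atTop) :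
    ∀ᵐ ω ∂P, Tendsto (fun X : ℕ => ∑ p ∈ PR X, φ p (e p ω)) atTop atTop := by
  have hme : ∀ p, Measurable (fun ω => φ p (e p ω)) := fun p => (hφm p).comp (hm p)
  have hE : ∀ X : ℕ, ∫ ω, Real.exp (- ∑ p ∈ PR X, φ p (e p ω)) ∂P ≤
      Real.exp (- (1 / 2) * ∑ p ∈ PR X, ∫ ω, φ p (e p ω) ∂P) := by
    intro X
    obtain ⟨I, hI⟩ : ∃ I : Finset ℕ, I = PR X := ⟨_, rfl⟩
    rw [← hI]
    have h1 := hind.precomp (g := fun i : I => (i : ℕ)) Subtype.val_injective
    have h2 := h1.integral_fun_prod_comp (f := fun (i : I) (x : ℝ) => Real.exp (- φ i x))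
      (fun i => (hm i).aemeasurable)
      (fun i => (Real.measurable_exp.comp (hφm i).neg).aestronglyMeasurable)
    have h3 : ∀ ω, Real.exp (- ∑ p ∈ I, φ p (e p ω)) = ∏ i : I, Real.exp (- φ i (e i ω)) := by
      intro ω
      rw [← Real.exp_sum, ← sum_neg_distrib]
      congr 1
      exact (sum_coe_sort I (fun i => - φ i (e i ω))).symm
    simp only [h3]
    rw [show (∫ ω, ∏ i : I, Real.exp (- φ i (e i ω)) ∂P) = ∏ i : I, ∫ ω, Real.exp (- φ i (e i ω)) ∂P
      from h2]
    rw [prod_coe_sort I (fun i => ∫ ω, Real.exp (- φ i (e i ω)) ∂P), mul_sum, Real.exp_sum]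
    apply Finset.prod_le_prod
    · intro p _
      exact integral_nonneg fun ω => (Real.exp_pos _).le
    · intro p hp
      have hpp : p.Prime := by rw [hI] at hp; exact (mem_filter.1 hp).2
      have hint : Integrable (fun ω => φ p (e p ω)) P := by
        apply Integrable.of_bound (hme p).aestronglyMeasurable 1
        exact Eventually.of_forall fun ω => by
          rw [Real.norm_of_nonneg (hφ0 p ω)]; exact hφ1 p hpp ω
      have hint2 : Integrable (fun ω => Real.exp (- φ p (e p ω))) P := by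
        apply Integrable.of_bound (Real.measurable_exp.comp (hme p).neg).aestronglyMeasurable 1
        apply Eventually.of_forall
        intro ω
        change ‖Real.exp (- φ p (e p ω))‖ ≤ 1
        rw [Real.norm_of_nonneg (Real.exp_pos _).le]
        exact Real.exp_le_one_iff.2 (by linarith [hφ0 p ω])
      calc ∫ ω, Real.exp (- φ p (e p ω)) ∂P ≤ ∫ ω, (1 - φ p (e p ω) / 2) ∂P :=
            integral_mono hint2 ((integrable_const 1).sub (hint.div_const 2)) fun ω =>
              exp_neg_le (hφ0 p ω) (hφ1 p hpp ω)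
        _ = 1 - (∫ ω, φ p (e p ω) ∂P) / 2 := by
            rw [integral_sub (integrable_const 1) (hint.div_const 2), integral_div]
            simp
        _ ≤ Real.exp (-(1 / 2) * ∫ ω, φ p (e p ω) ∂P) := by
            have := Real.add_one_le_exp (-(1 / 2) * ∫ ω, φ p (e p ω) ∂P)
            linarith
  -- pass to a subsequence with summable bounds
  have hto : Tendsto (fun X : ℕ => Real.exp (- (1 / 2) * ∑ p ∈ PR X, ∫ ω, φ p (e p ω) ∂P)) atTop
      (nhds 0) := by
    apply Real.tendsto_exp_atBot.comp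
    exact Tendsto.const_mul_atTop_of_neg (by norm_num) hdiv
  have hsub : ∀ k : ℕ, ∃ X : ℕ, Real.exp (- (1 / 2) * ∑ p ∈ PR X, ∫ ω, φ p (e p ω) ∂P) ≤
      (1 / 2 : ℝ) ^ k := by
    intro k
    have h1 := hto.eventually (gt_mem_nhds (show (0 : ℝ) < (1 / 2 : ℝ) ^ k by positivity))
    obtain ⟨X, hX⟩ := h1.exists
    exact ⟨X, hX.le⟩
  choose Xs hXs using hsub
  have h4 := ae_tendsto (P := P) (fun k ω => Real.exp (- ∑ p ∈ PR (Xs k), φ p (e p ω)))
    (fun k => by
      apply Integrable.of_bound _ 1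
      · apply Eventually.of_forall
        intro ω
        rw [Real.norm_of_nonneg (Real.exp_pos _).le]
        exact Real.exp_le_one_iff.2 (neg_nonpos.2 (sum_nonneg fun p _ => hφ0 p ω))
      · exact (Real.measurable_exp.comp
          (Finset.measurable_fun_sum _ fun p _ => hme p).neg).aestronglyMeasurable)
    (fun k ω => (Real.exp_pos _).le)
    (fun k => Real.measurable_exp.comp (Finset.measurable_fun_sum _ fun p _ => hme p).neg)
    (fun k => (1 / 2 : ℝ) ^ k) (summable_geometric_of_lt_one (by norm_num) (by norm_num))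
    (fun k => (hE (Xs k)).trans (hXs k))
  filter_upwards [h4] with ω hω
  have hmono : Monotone (fun X : ℕ => ∑ p ∈ PR X, φ p (e p ω)) := by
    intro X Y hXY
    apply sum_le_sum_of_subset_of_nonneg
    · intro p hp
      simp only [mem_filter, mem_Icc] at hp ⊢
      exact ⟨⟨hp.1.1, hp.1.2.trans hXY⟩, hp.2⟩
    · intro p _ _
      exact hφ0 p ω
  apply tendsto_atTop_atTop_of_monotone hmono
  intro b
  have h5 := hω.eventually (gt_mem_nhds (Real.exp_pos (-b)))
  obtain ⟨k, hk⟩ := h5.exists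
  refine ⟨Xs k, ?_⟩
  have := Real.exp_lt_exp.1 hk
  linarith

theorem SS_tendsto {P : Measure Ω} [IsProbabilityMeasure P] {e : ℕ → Ω → ℝ}
    (he : ∀ p ω, e p ω = 1 ∨ e p ω = -1)
    (hS : Summable fun b : ℕ => Real.exp (- SS P e (2 ^ (2 ^ b)))) :
    Tendsto (fun X : ℕ => SS P e X) atTop atTop := by
  have ha0 : ∀ p, 0 ≤ 1 - |∫ ω, e p ω ∂P| := by
    intro p
    have := int_pow_le (P := P) (fun ω => he p ω) 1
    simp only [pow_one] at this
    linarith
  have hmono : Monotone (fun X : ℕ => SS P e X) := by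
    intro X Y hXY
    apply sum_le_sum_of_subset_of_nonneg
    · intro p hp
      simp only [mem_filter, mem_Icc] at hp ⊢
      exact ⟨⟨hp.1.1, hp.1.2.trans hXY⟩, hp.2⟩
    · intro p _ _
      exact div_nonneg (ha0 p) (Nat.cast_nonneg _)
  apply tendsto_atTop_atTop_of_monotone hmono
  intro b
  have h5 := hS.tendsto_atTop_zero.eventually (gt_mem_nhds (Real.exp_pos (-b)))
  obtain ⟨k, hk⟩ := h5.exists
  refine ⟨2 ^ (2 ^ k), ?_⟩
  have := Real.exp_lt_exp.1 hk
  linarith

/-- almost surely the distance to a fixed bounded function is infinite -/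
theorem dist_as {P : Measure Ω} [IsProbabilityMeasure P] {e : ℕ → Ω → ℝ}
    (hm : ∀ p, Measurable (e p)) (hind : iIndepFun e P) (he : ∀ p ω, e p ω = 1 ∨ e p ω = -1)
    (hS : Summable fun b : ℕ => Real.exp (- SS P e (2 ^ (2 ^ b))))
    (r : ℕ → ℝ) (hr : ∀ p, |r p| ≤ 1) :
    ∀ᵐ ω ∂P, Tendsto (fun X : ℕ => ∑ p ∈ PR X, (1 - e p ω * r p) / p) atTop atTop := by
  have hab : ∀ p ω, |e p ω * r p| ≤ 1 := by
    intro p ω
    rw [abs_mul]
    rcases he p ω with h | h <;> rw [h] <;> simp [hr p]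
  have hint : ∀ p, Integrable (e p) P := fun p =>
    Integrable.of_bound (hm p).aestronglyMeasurable 1 (Eventually.of_forall fun ω => by
      rw [Real.norm_eq_abs]; rcases he p ω with h | h <;> rw [h] <;> simp)
  apply div_as hm hind (fun p x => (1 - x * r p) / p)
  · intro p
    exact (measurable_const.sub (measurable_id.mul_const _)).div_const _
  · intro p ω
    apply div_nonneg _ (Nat.cast_nonneg _)
    linarith [(abs_le.1 (hab p ω)).2]
  · intro p hp ω
    have h2 : (2 : ℝ) ≤ p := by exact_mod_cast hp.two_le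
    rw [div_le_one (by linarith)]
    linarith [(abs_le.1 (hab p ω)).1]
  · apply tendsto_atTop_mono _ (SS_tendsto he hS)
    intro X
    apply sum_le_sum
    intro p _
    rw [integral_div, integral_sub (integrable_const 1) ((hint p).mul_const _), integral_mul_const]
    apply div_le_div_of_nonneg_right _ (Nat.cast_nonneg _)
    simp only [integral_const, probReal_univ, smul_eq_mul, mul_one]
    have h1 : (∫ ω, e p ω ∂P) * r p ≤ |∫ ω, e p ω ∂P| := by
      calc (∫ ω, e p ω ∂P) * r p ≤ |(∫ ω, e p ω ∂P) * r p| := le_abs_self _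
        _ = |∫ ω, e p ω ∂P| * |r p| := abs_mul _ _
        _ ≤ |∫ ω, e p ω ∂P| * 1 := mul_le_mul_of_nonneg_left (hr p) (abs_nonneg _)
        _ = _ := mul_one _
    linarith

/-- `∑ 1 / n` over `n ≤ X` divided by `log X` tends to `1` -/
theorem harm_tendsto : Tendsto (fun X : ℕ => (∑ n ∈ Icc 1 X, (1 : ℝ) / n) / Real.log X) atTop
    (nhds 1) := by
  have hlog : Tendsto (fun X : ℕ => Real.log (X : ℝ)) atTop atTop :=
    Real.tendsto_log_atTop.comp tendsto_natCast_atTop_atTop
  have h1 : Tendsto (fun X : ℕ => ((harmonic X : ℚ) : ℝ) - Real.log X) atTop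
      (nhds Real.eulerMascheroniConstant) := Real.tendsto_harmonic_sub_log
  have h2 : Tendsto (fun X : ℕ => (((harmonic X : ℚ) : ℝ) - Real.log X) / Real.log X + 1) atTop
      (nhds (0 + 1)) := (h1.div_atTop hlog).add_const 1
  rw [zero_add] at h2
  refine h2.congr' ?_
  filter_upwards [eventually_ge_atTop 2] with X hX
  have hl : 0 < Real.log X := Real.log_pos (by exact_mod_cast hX)
  have h3 : ((harmonic X : ℚ) : ℝ) = ∑ n ∈ Icc 1 X, (1 : ℝ) / n := by
    rw [harmonic_eq_sum_Icc]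
    push_cast
    exact sum_congr rfl fun n _ => (one_div _).symm
  rw [h3]
  field_simp
  ring

/-- densities of sign patterns from correlations -/
theorem pattern (f : ℕ → ℝ) (hf : ∀ n, f n = 1 ∨ f n = -1)
    (hcor : ∀ A : Finset ℕ, A.Nonempty → Tendsto (fun X : ℕ =>
      (∑ n ∈ Icc 1 X, (∏ h ∈ A, f (n + h)) / n) / Real.log X) atTop (nhds 0))
    (H : Finset ℕ) (σ : ℕ → ℝ) (hσ : ∀ h, σ h = 1 ∨ σ h = -1) :
    Tendsto (fun X : ℕ => (∑ n ∈ (Icc 1 X).filter (fun n => ∀ h ∈ H, f (n + h) = σ h),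
      (1 : ℝ) / n) / Real.log X) atTop (nhds ((1 / 2) ^ H.card)) := by
  classical
  have h1 : ∀ n, (if ∀ h ∈ H, f (n + h) = σ h then (1 : ℝ) else 0) =
      (1 / 2) ^ H.card * ∑ A ∈ H.powerset, (∏ h ∈ A, σ h) * ∏ h ∈ A, f (n + h) := by
    intro n
    have h2 : ∑ A ∈ H.powerset, (∏ h ∈ A, σ h) * ∏ h ∈ A, f (n + h) =
        ∏ h ∈ H, (1 + σ h * f (n + h)) := by
      rw [prod_one_add]
      exact sum_congr rfl fun A _ => (prod_mul_distrib).symm
    rw [h2, ← prod_const, ← prod_mul_distrib]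
    split_ifs with hc
    · symm
      apply prod_eq_one
      intro h hh
      rw [hc h hh]
      rcases hσ h with h3 | h3 <;> rw [h3] <;> norm_num
    · push Not at hc
      obtain ⟨h, hh, hne⟩ := hc
      symm
      apply prod_eq_zero hh
      rcases hσ h with h3 | h3 <;> rcases hf (n + h) with h4 | h4 <;> rw [h3, h4] at hne ⊢ <;>
        first | exact absurd rfl hne | norm_num
  have h5 : ∀ X : ℕ, (∑ n ∈ (Icc 1 X).filter (fun n => ∀ h ∈ H, f (n + h) = σ h),
      (1 : ℝ) / n) / Real.log X = (1 / 2) ^ H.card * ∑ A ∈ H.powerset, (∏ h ∈ A, σ h) *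
        ((∑ n ∈ Icc 1 X, (∏ h ∈ A, f (n + h)) / n) / Real.log X) := by
    intro X
    rw [sum_filter]
    have h6 : ∀ n ∈ Icc 1 X, (if ∀ h ∈ H, f (n + h) = σ h then (1 : ℝ) / n else 0) =
        (1 / 2) ^ H.card * ∑ A ∈ H.powerset, (∏ h ∈ A, σ h) * ((∏ h ∈ A, f (n + h)) / n) := by
      intro n _
      have h7 : (if ∀ h ∈ H, f (n + h) = σ h then (1 : ℝ) / n else 0) =
          (if ∀ h ∈ H, f (n + h) = σ h then (1 : ℝ) else 0) * (1 / n) := by
        split_ifs <;> simp
      rw [h7, h1 n, mul_assoc, sum_mul]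
      congr 1
      exact sum_congr rfl fun A _ => by ring
    rw [sum_congr rfl h6, ← mul_sum, sum_comm, mul_div_assoc, sum_div]
    congr 1
    apply sum_congr rfl
    intro A _
    rw [← mul_sum, mul_div_assoc]
  simp only [h5]
  have h8 : ∀ A ∈ H.powerset, Tendsto (fun X : ℕ => (∏ h ∈ A, σ h) *
      ((∑ n ∈ Icc 1 X, (∏ h ∈ A, f (n + h)) / n) / Real.log X)) atTop
      (nhds (if A = ∅ then 1 else 0)) := by
    intro A _
    split_ifs with hA
    · subst hA
      simp only [prod_empty, one_mul]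
      exact harm_tendsto
    · have := (hcor A (nonempty_iff_ne_empty.2 hA)).const_mul (∏ h ∈ A, σ h)
      rwa [mul_zero] at this
  have h9 := (tendsto_finsetSum _ h8).const_mul ((1 / 2 : ℝ) ^ H.card)
  have h10 : ∑ A ∈ H.powerset, (if A = ∅ then (1 : ℝ) else 0) = 1 := by
    rw [sum_ite_eq']
    simp
  rwa [h10, mul_one] at h9

end Pool.Agent.W136.RF
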